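import Pool.Agent.H72.INS.Dim

/-!
# A one-dimensional subset of space such that all continua crossing it contain a square

MP_da03b0_gt, Q1 (disproof for `n = 3`).
-/

set_option autoImplicit false

namespace Pool.Agent.Results.MP_da03b0_gt.SquareBarrier

/-- The covering dimension of the space `X` is at most `k`: for every cover of `X` by finitely many open
sets `U i` there is a cover of `X` by finitely many open sets `V j`, each contained in some `U i`, such that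
every point of `X` lies in at most `k + 1` of the `V j`. -/
def CoveringDimLE (X : Type) [TopologicalSpace X] (k : ℕ) : Prop :=
  ∀ (m : ℕ) (U : Fin m → Set X), (∀ i, IsOpen (U i)) → (∀ x, ∃ i, x ∈ U i) →
    ∃ (r : ℕ) (V : Fin r → Set X), (∀ j, IsOpen (V j)) ∧ (∀ x, ∃ j, x ∈ V j) ∧
      (∀ j, ∃ i, V j ⊆ U i) ∧ ∀ x, Nat.card {j // x ∈ V j} ≤ k + 1

theorem result :
    ∃ A U V : Set (EuclideanSpace ℝ (Fin 3)),
      CoveringDimLE A 1 ∧ ¬ CoveringDimLE A 0 ∧
      IsOpen U ∧ IsOpen V ∧ U.Nonempty ∧ V.Nonempty ∧ Disjoint A U ∧ Disjoint A V ∧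
      ∀ K : Set (EuclideanSpace ℝ (Fin 3)), IsCompact K → IsConnected K → Disjoint K A →
        (K ∩ U).Nonempty → (K ∩ V).Nonempty →
        (∃ a b c s : ℝ, 0 < s ∧ ∀ x : EuclideanSpace ℝ (Fin 3),
          x 0 ∈ Set.Icc a (a + s) → x 1 ∈ Set.Icc b (b + s) → x 2 = c → x ∈ K) ∧
        ¬ CoveringDimLE K 1 := by
  obtain ⟨A, U, V, h1, ⟨S, hS, hSn⟩, h3, h4, h5, h6, h7, h8, h9⟩ := Pool.Agent.H72.INS.final
  refine ⟨A, U, V, Pool.Agent.H72.INS.cov_of_dimLe h1, ?_, h3, h4, h5, h6, h7, h8, ?_⟩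
  · intro h
    exact Set.not_subsingleton_iff.mpr hSn (Pool.Agent.H72.INS.subsingleton_of_cov h hS)
  · intro K hK1 hK2 hK3 hK4 hK5
    obtain ⟨h10, h11⟩ := h9 K hK1 hK2 hK3 hK4 hK5
    exact ⟨h10, fun h => h11 (Pool.Agent.H72.INS.dimLe_of_cov h)⟩

end Pool.Agent.Results.MP_da03b0_gt.SquareBarrier
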